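import Mathlib
import Pool.Agent.H75.LR.Stm3
import Pool.Agent.H75.PR.Fin

/-! Reduction to a Lorentzian metric with `g (R, ·) = α` (module RD). -/

open scoped Topology ContDiff Manifold
open Set Filter Bundle Pool.Agent.H826R2.WStmt Pool.Agent.W671.RStmt
open Pool.Agent.H75.PRStmt Pool.Agent.H75.PR Pool.Agent.H75.LR
open Pool.Agent.W671 Pool.Agent.H826R2

noncomputable section

set_option maxSynthPendingDepth 3
set_option linter.unusedSectionVars false

namespace Pool.Agent.H87.LR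

universe u v

section alg

variable {E : Type u} [NormedAddCommGroup E] [NormedSpace ℝ E]

/-- the modified bilinear form `b - (b r ⊗ b r) / b (r, r) + a ⊗ a` -/
def md (b : Bil E) (a : Cov E) (r : E) : Bil E :=
  ((show E →L[ℝ] E →L[ℝ] ℝ from b) -
    (bev b r r)⁻¹ • ((show E →L[ℝ] E →L[ℝ] ℝ from b) r).smulRight
      ((show E →L[ℝ] E →L[ℝ] ℝ from b) r) +
    (show E →L[ℝ] ℝ from a).smulRight (show E →L[ℝ] ℝ from a) : E →L[ℝ] E →L[ℝ] ℝ)

lemma md_apply (b : Bil E) (a : Cov E) (r u v : E) :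
    bev (md b a r) u v = bev b u v - (bev b r r)⁻¹ * (bev b r u * bev b r v) + ev a u * ev a v := by
  unfold md bev ev
  simp

lemma bev_add (b : Bil E) (x y z : E) : bev b (x + y) z = bev b x z + bev b y z := by
  show (show E →L[ℝ] E →L[ℝ] ℝ from b) (x + y) z = _
  rw [map_add]; rfl

lemma bev_smul (b : Bil E) (s : ℝ) (x z : E) : bev b (s • x) z = s * bev b x z := by
  show (show E →L[ℝ] E →L[ℝ] ℝ from b) (s • x) z = _
  rw [map_smul]; rfl

lemma bev_add' (b : Bil E) (x y z : E) : bev b z (x + y) = bev b z x + bev b z y := by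
  show (show E →L[ℝ] E →L[ℝ] ℝ from b) z (x + y) = _
  rw [map_add]; rfl

lemma bev_smul' (b : Bil E) (s : ℝ) (x z : E) : bev b z (s • x) = s * bev b z x := by
  show (show E →L[ℝ] E →L[ℝ] ℝ from b) z (s • x) = _
  rw [map_smul]; rfl

lemma ev_add (a : Cov E) (x y : E) : ev a (x + y) = ev a x + ev a y := by
  show (show E →L[ℝ] ℝ from a) (x + y) = _
  rw [map_add]; rfl

lemma ev_smul (a : Cov E) (s : ℝ) (x : E) : ev a (s • x) = s * ev a x := by
  show (show E →L[ℝ] ℝ from a) (s • x) = _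
  rw [map_smul]; rfl

/-- the value on `r + u` -/
def bq (b : Bil E) (r u : E) : ℝ := bev b (r + u) (r + u)

/-- orthogonal projection along `r` -/
def pr (b : Bil E) (r u : E) : E := u + (-(bev b r u * (bev b r r)⁻¹)) • r

lemma bev_pr_r {b : Bil E} {r : E} (hr : bev b r r ≠ 0) (u : E) : bev b r (pr b r u) = 0 := by
  rw [pr, bev_add', bev_smul']
  field_simp
  ring

lemma md_eq {b : Bil E} (hs : ∀ u v, bev b u v = bev b v u) (a : Cov E) {r : E}
    (hr : bev b r r ≠ 0) (u v : E) :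
    bev (md b a r) u v = bev b (pr b r u) (pr b r v) + ev a u * ev a v := by
  rw [md_apply]
  have h1 : bev b (pr b r u) (pr b r v) = bev b u v - (bev b r r)⁻¹ * (bev b r u * bev b r v) := by
    have h2 : bev b (pr b r u) (pr b r v) = bev b u (pr b r v) := by
      conv_lhs => rw [pr]
      rw [bev_add, bev_smul, bev_pr_r hr]
      ring
    rw [h2, pr, bev_add', bev_smul', hs u r]
    ring
  rw [h1]

lemma md_lorentz [FiniteDimensional ℝ E] {b : Bil E} (hs : ∀ u v, bev b u v = bev b v u) (hb : IsLorentz b) {a : Cov E}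
    {r : E} (ha : ev a r = 1) (hr : 0 < bev b r r) : IsLorentz (md b a r) := by
  obtain ⟨w₁, hw₁, hpos⟩ := id hb
  have hr0 : bev b r r ≠ 0 := hr.ne'
  set w₀ := pr b r w₁ with hw₀
  have h00 : bev b w₀ w₀ < 0 := by
    have h1 := md_eq hs a hr0 w₁ w₁
    rw [md_apply] at h1
    have h2 : bev b w₀ w₀ = bev b w₁ w₁ - (bev b r r)⁻¹ * (bev b r w₁ * bev b r w₁) := by
      linarith
    rw [h2]
    have h3 : 0 ≤ (bev b r r)⁻¹ * (bev b r w₁ * bev b r w₁) :=
      mul_nonneg (inv_nonneg.2 hr.le) (mul_self_nonneg _)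
    linarith
  have hrw : bev b r w₀ = 0 := bev_pr_r hr0 w₁
  set w : E := w₀ + (-(ev a w₀)) • r with hw
  have haw : ev a w = 0 := by
    rw [hw, ev_add, ev_smul, ha]; ring
  have hpw : pr b r w = w₀ := by
    rw [pr, hw, bev_add', bev_smul', hrw]
    have : -((0 + -ev a w₀ * bev b r r) * (bev b r r)⁻¹) = ev a w₀ := by
      field_simp
      ring
    rw [this, add_assoc, ← add_smul]
    simp
  refine ⟨w, ?_, ?_⟩
  · rw [md_eq hs a hr0, hpw, haw]
    linarith
  · intro u hu huw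
    rw [md_eq hs a hr0, hpw, haw, mul_zero, add_zero] at huw
    rw [md_eq hs a hr0]
    by_cases hpu : pr b r u = 0
    · have h1 : u = (bev b r u * (bev b r r)⁻¹) • r := by
        have h2 := hpu
        rw [pr, neg_smul, ← sub_eq_add_neg, sub_eq_zero] at h2
        exact h2
      have h3 : ev a u ≠ 0 := by
        intro h4
        rw [h1, ev_smul, ha, mul_one] at h4
        apply hu
        rw [h1, h4, zero_smul]
      rw [hpu]
      have h5 : bev b (0 : E) 0 = 0 := by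
        have := bev_smul b 0 (0:E) 0
        rwa [zero_smul, zero_mul] at this
      rw [h5, zero_add]
      exact mul_self_pos.2 h3
    · have h1 : 0 < bev b (pr b r u) (pr b r u) := by
        refine pos_of_causal (a := ((bev b w₀ w₀)⁻¹ • (show E →L[ℝ] E →L[ℝ] ℝ from b) w₀ :
          E →L[ℝ] ℝ)) (r := w₀) hs hb ?_ h00.le hpu ?_ huw
        · show (bev b w₀ w₀)⁻¹ * bev b w₀ w₀ = 1
          exact inv_mul_cancel₀ h00.ne
        · show (bev b w₀ w₀)⁻¹ * bev b w₀ (pr b r u) = 0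
          rw [hs w₀ (pr b r u), huw, mul_zero]
      have h2 := mul_self_nonneg (ev a u)
      linarith

end alg

section smooth

variable {E : Type u} [NormedAddCommGroup E] [NormedSpace ℝ E]
  {M : Type v} [TopologicalSpace M] [ChartedSpace E M] [IsManifold 𝓘(ℝ, E) ∞ M]

/-- adding a smooth vector field is smooth on the tangent bundle -/
lemma smooth_add (R : (x : M) → TangentSpace 𝓘(ℝ, E) x)
    (hR : ContMDiff 𝓘(ℝ, E) 𝓘(ℝ, E).tangent ∞ (fun x => (⟨x, R x⟩ : TangentBundle 𝓘(ℝ, E) M))) :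
    ContMDiff 𝓘(ℝ, E).tangent 𝓘(ℝ, E).tangent ∞
      (fun v : TangentBundle 𝓘(ℝ, E) M =>
        (⟨v.1, R v.1 + v.2⟩ : TangentBundle 𝓘(ℝ, E) M)) := by
  intro v
  have h1 : ContMDiffAt 𝓘(ℝ, E).tangent 𝓘(ℝ, E).tangent ∞
      (fun v : TangentBundle 𝓘(ℝ, E) M => (⟨v.1, R v.1⟩ : TangentBundle 𝓘(ℝ, E) M)) v :=
    (hR v.1).comp v (contMDiff_proj _ v)
  have h2 : ContMDiffAt 𝓘(ℝ, E).tangent 𝓘(ℝ, E).tangent ∞
      (fun v : TangentBundle 𝓘(ℝ, E) M => v) v := contMDiffAt_id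
  rw [contMDiffAt_totalSpace] at h1 h2 ⊢
  refine ⟨h2.1, ?_⟩
  have h3 := h1.2.add h2.2
  refine h3.congr_of_eventuallyEq ?_
  have h4 : ∀ᶠ w : TangentBundle 𝓘(ℝ, E) M in 𝓝 v, w.proj ∈
      (trivializationAt E (TangentSpace 𝓘(ℝ, E)) v.proj).baseSet :=
    (FiberBundle.continuous_proj E (TangentSpace 𝓘(ℝ, E))).continuousAt.preimage_mem_nhds
      ((trivializationAt E (TangentSpace 𝓘(ℝ, E)) v.proj).open_baseSet.mem_nhds
        (mem_baseSet_trivializationAt E (TangentSpace 𝓘(ℝ, E)) v.proj))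
  filter_upwards [h4] with w hw
  exact ((trivializationAt E (TangentSpace 𝓘(ℝ, E)) v.proj).linear ℝ hw).map_add (R w.proj) w.2

end smooth

theorem rd : S_RD.{u, v} := by
  intro E _ _ _ M _ _ _ _ _ α hα R hR Φ hΦ g hg hL hinv hpos
  have c : Wein.CD (toForm α) (fun x => (R x : TangentSpace 𝓘(ℝ, E) x)) := ⟨hα.toWein, hR.toWein⟩
  have hRs := WU.smooth_reeb c
  have hRF := rf_of hα hR hΦ
  have hsym : ∀ x u v, bev (md (g x) (α x) (R x)) u v = bev (md (g x) (α x) (R x)) v u := by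
    intro x u v
    rw [md_apply, md_apply, hg.symm x u v]
    ring
  have hlor : ∀ x, IsLorentz (md (g x) (α x) (R x)) := fun x =>
    md_lorentz (hg.symm x) (hL x) (hR.unit x) (hpos x)
  refine ⟨fun x => md (g x) (α x) (R x), ⟨hsym, ?_, ?_⟩, hlor, ?_, ?_⟩
  · intro x u hu
    by_contra hne
    obtain ⟨w, -, hw⟩ := hlor x
    have h1 := hw u hne (hu w)
    rw [hu u] at h1
    exact lt_irrefl _ h1
  · -- smoothness
    have s1 := hg.smooth
    have s2 : ContMDiff 𝓘(ℝ, E).tangent 𝓘(ℝ, ℝ) ∞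
        (fun v : TangentBundle 𝓘(ℝ, E) M => ev (α v.1) v.2) := hα.smooth
    have s3 : ContMDiff 𝓘(ℝ, E).tangent 𝓘(ℝ, ℝ) ∞
        (fun v : TangentBundle 𝓘(ℝ, E) M => bev (g v.1) (R v.1) (R v.1)) :=
      (s1.comp hRs).comp (contMDiff_proj _)
    have s4 : ContMDiff 𝓘(ℝ, E).tangent 𝓘(ℝ, ℝ) ∞
        (fun v : TangentBundle 𝓘(ℝ, E) M => bq (g v.1) (R v.1) v.2) :=
      s1.comp (smooth_add (fun x => (R x : TangentSpace 𝓘(ℝ, E) x)) hRs)
    have s5 : ContMDiff 𝓘(ℝ, E).tangent 𝓘(ℝ, ℝ) ∞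
        (fun v : TangentBundle 𝓘(ℝ, E) M => (bev (g v.1) (R v.1) (R v.1))⁻¹) := by
      intro v
      have h1 : ContMDiffAt 𝓘(ℝ, ℝ) 𝓘(ℝ, ℝ) ∞ (fun y : ℝ => y⁻¹)
          (bev (g v.1) (R v.1) (R v.1)) :=
        (contDiffAt_inv ℝ (hpos v.1).ne').contMDiffAt
      exact ContMDiffAt.comp v h1 (s3 v)
    have s6 : ContMDiff 𝓘(ℝ, E).tangent 𝓘(ℝ, ℝ) ∞
        (fun v : TangentBundle 𝓘(ℝ, E) M =>
          (bq (g v.1) (R v.1) v.2 - bev (g v.1) (R v.1) (R v.1) -
            bev (g v.1) v.2 v.2) * 2⁻¹) :=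
      ((s4.sub s3).sub s1).mul contMDiff_const
    have s7 := (s1.sub (s5.mul (s6.mul s6))).add (s2.mul s2)
    refine s7.congr ?_
    intro v
    show bev (md (g v.1) (α v.1) (R v.1)) v.2 v.2 = _
    rw [md_apply]
    have h1 : (bq (g v.1) (R v.1) v.2 - bev (g v.1) (R v.1) (R v.1) -
            bev (g v.1) v.2 v.2) * 2⁻¹ = bev (g v.1) (R v.1) v.2 := by
      have h2 : bq (g v.1) (R v.1) v.2 = bev (g v.1) (R v.1) (R v.1) +
          2 * bev (g v.1) (R v.1) v.2 + bev (g v.1) v.2 v.2 := by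
        rw [bq, bev_add, bev_add', bev_add', hg.symm v.1 v.2 (R v.1)]
        ring
      rw [h2]
      ring
    simp only [Pi.add_apply, Pi.mul_apply]
    rw [h1]
  · intro t x u v
    rw [md_apply, md_apply]
    have h1 : R (Φ x t) = D (E := E) (E' := E) (fun y => Φ y t) x (R x) :=
      (D_flow_R hRF x t).symm
    have h2 : ∀ u : E, ev (α (Φ x t)) (D (E := E) (E' := E) (fun y => Φ y t) x u) =
        ev (α x) u := fun u => hRF.strict t x u
    rw [h2, h2, h1, hinv, hinv, hinv, hinv]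
  · intro x u
    show bev (md (g x) (α x) (R x)) (R x) u = _
    rw [md_apply, hR.unit x]
    have h0 := (hpos x).ne'
    field_simp
    ring

end Pool.Agent.H87.LR
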