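import Mathlib
import Pool.Agent.H75.LR.Stm2

/-! The growth rate of an invariant line field under a flow, read in a chart (module GR). -/

open scoped Topology ContDiff Manifold
open Set Filter Pool.Agent.H826R2.WStmt Pool.Agent.W671.RStmt
open Pool.Agent.H75.PRStmt Pool.Agent.H75.PR Pool.Agent.H75.LR

noncomputable section

set_option maxSynthPendingDepth 3
set_option linter.unusedSectionVars false

namespace Pool.Agent.H87.LR

universe u v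

variable {E : Type u} [NormedAddCommGroup E] [NormedSpace ℝ E] [FiniteDimensional ℝ E]
  {M : Type v} [TopologicalSpace M] [ChartedSpace E M] [IsManifold 𝓘(ℝ, E) ∞ M]

/-- the flow read in the chart at `p`, as a function of the point and the time -/
def Psi (E : Type u) [NormedAddCommGroup E] [NormedSpace ℝ E] {M : Type v} [TopologicalSpace M]
    [ChartedSpace E M] (Φ : M → ℝ → M) (p : M) (q : E × ℝ) : E :=
  ch E p (Φ ((ch E p).symm q.1) q.2)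

lemma psi_hat (Φ : M → ℝ → M) (p : M) (z : E) (t : ℝ) :
    Psi E Φ p (z, t) = hat E p (fun y => Φ y t) z := rfl

lemma contDiffAt_psi {R : M → E} {Φ : M → ℝ → M} (hF : IsFlow R Φ)
    (hs : ContMDiff (𝓘(ℝ, E).prod 𝓘(ℝ, ℝ)) 𝓘(ℝ, E) ∞ (fun q : M × ℝ => Φ q.1 q.2))
    {p : M} {z₀ : E} (hz : z₀ ∈ (ch E p).target) : ContDiffAt ℝ ∞ (Psi E Φ p) (z₀, (0:ℝ)) := by
  rw [← contMDiffAt_iff_contDiffAt]
  have h0 : Φ ((ch E p).symm z₀) 0 = (ch E p).symm z₀ := hF.zero _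
  have hsrc : (ch E p).symm z₀ ∈ (ch E p).source := (ch E p).map_target hz
  have h1 : ContMDiffAt 𝓘(ℝ, E) 𝓘(ℝ, E) ∞ (ch E p) (Φ ((ch E p).symm z₀) 0) := by
    rw [h0]
    exact contMDiffAt_extChartAt' (by rwa [extChartAt_source] at hsrc)
  have h2 : ContMDiffAt 𝓘(ℝ, E) 𝓘(ℝ, E) ∞ (ch E p).symm z₀ :=
    (contMDiffOn_extChartAt_symm (n := ∞) p).contMDiffAt
      ((isOpen_extChartAt_target p).mem_nhds hz)
  have h3 : ContMDiffAt 𝓘(ℝ, E × ℝ) 𝓘(ℝ, E) ∞ (fun q : E × ℝ => (ch E p).symm q.1)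
      (z₀, (0:ℝ)) :=
    ContMDiffAt.comp (z₀, (0:ℝ)) (g := (ch E p).symm) (f := fun q : E × ℝ => q.1) h2
      contDiff_fst.contMDiff.contMDiffAt
  have h4 : ContMDiffAt 𝓘(ℝ, E × ℝ) 𝓘(ℝ, ℝ) ∞ (fun q : E × ℝ => q.2) (z₀, (0:ℝ)) :=
    contDiff_snd.contMDiff.contMDiffAt
  have h5 : ContMDiffAt 𝓘(ℝ, E × ℝ) (𝓘(ℝ, E).prod 𝓘(ℝ, ℝ)) ∞
      (fun q : E × ℝ => ((ch E p).symm q.1, q.2)) (z₀, (0:ℝ)) := h3.prodMk h4
  have h6 : ContMDiffAt 𝓘(ℝ, E × ℝ) 𝓘(ℝ, E) ∞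
      (fun q : E × ℝ => Φ ((ch E p).symm q.1) q.2) (z₀, (0:ℝ)) :=
    ContMDiffAt.comp (z₀, (0:ℝ)) (g := fun q : M × ℝ => Φ q.1 q.2)
      (f := fun q : E × ℝ => ((ch E p).symm q.1, q.2)) hs.contMDiffAt h5
  exact ContMDiffAt.comp (z₀, (0:ℝ)) (g := ch E p)
    (f := fun q : E × ℝ => Φ ((ch E p).symm q.1) q.2) h1 h6

/-- the time derivative at time zero -/
lemma hasDerivAt_psi {R : M → E} {Φ : M → ℝ → M} (hF : IsFlow R Φ) {p : M} {z : E}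
    (hz : z ∈ (ch E p).target) :
    HasDerivAt (fun t : ℝ => Psi E Φ p (z, t)) (cVec R p z) 0 := by
  have hsrc : (ch E p).symm z ∈ (ch E p).source := (ch E p).map_target hz
  have h0 : Φ ((ch E p).symm z) 0 = (ch E p).symm z := hF.zero _
  have h1 := hF.integral ((ch E p).symm z) 0
  have h2 : MDifferentiableAt 𝓘(ℝ, E) 𝓘(ℝ, E) (ch E p) (Φ ((ch E p).symm z) 0) := by
    rw [h0]; exact mdiff_chart hsrc
  have h3 : HasFDerivAt (fun t : ℝ => Psi E Φ p (z, t))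
      ((D (E := E) (E' := E) (ch E p) (Φ ((ch E p).symm z) 0)).comp
        ((1 : ℝ →L[ℝ] ℝ).smulRight (R (Φ ((ch E p).symm z) 0)))) 0 :=
    (HasMFDerivAt.comp (0:ℝ) h2.hasMFDerivAt h1).hasFDerivAt
  have h4 := h3.hasDerivAt
  have h5 : ((D (E := E) (E' := E) (ch E p) (Φ ((ch E p).symm z) 0)).comp
        ((1 : ℝ →L[ℝ] ℝ).smulRight (R (Φ ((ch E p).symm z) 0)))) 1 = cVec R p z := by
    rw [h0]
    simp [cVec]
  rw [h5] at h4
  exact h4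

lemma two_le : (1 + 1 : WithTop ℕ∞) ≤ ((⊤ : ℕ∞) : WithTop ℕ∞) := by
  have h1 : ((2 : ℕ∞) : WithTop ℕ∞) ≤ ((⊤ : ℕ∞) : WithTop ℕ∞) := WithTop.coe_le_coe.2 le_top
  have h2 : (1 + 1 : WithTop ℕ∞) = ((2 : ℕ∞) : WithTop ℕ∞) := by norm_num
  rw [h2]; exact h1

/-- a smooth map near `z₀` which is the flow read in a chart -/
lemma core (Ψ : E × ℝ → E) (z₀ : E) (hΨ : ContDiffAt ℝ ∞ Ψ (z₀, (0:ℝ))) (X : E → E)
    (h0 : ∀ᶠ z in 𝓝 z₀, Ψ (z, 0) = z)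
    (hX : ∀ᶠ z in 𝓝 z₀, HasDerivAt (fun t : ℝ => Ψ (z, t)) (X z) 0)
    (s : E → E) (ep : E → E →L[ℝ] ℝ) (hep : ContDiffAt ℝ ∞ ep z₀)
    (h1 : ∀ᶠ z in 𝓝 z₀, ep z (X z) = 0) :
    HasDerivAt (fun t : ℝ => ep (Ψ (z₀, t)) (fderiv ℝ Ψ (z₀, t) (s z₀, 0)))
      (- dd ep z₀ (s z₀) (X z₀)) 0 := by
  -- second derivative
  have hd1 : ContDiffAt ℝ 1 (fderiv ℝ Ψ) (z₀, (0:ℝ)) :=
    hΨ.fderiv_right (m := 1) two_le
  have hd2 : HasFDerivAt (fderiv ℝ Ψ) (fderiv ℝ (fderiv ℝ Ψ) (z₀, (0:ℝ))) (z₀, (0:ℝ)) :=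
    (hd1.differentiableAt (by simp)).hasFDerivAt
  have hsym : IsSymmSndFDerivAt ℝ Ψ (z₀, (0:ℝ)) :=
    hΨ.isSymmSndFDerivAt (by
      rw [minSmoothness_of_isRCLikeNormedField]
      exact two_le)
  set D2 := fderiv ℝ (fderiv ℝ Ψ) (z₀, (0:ℝ)) with hD2
  have hdiff : ∀ᶠ q in 𝓝 (z₀, (0:ℝ)), DifferentiableAt ℝ Ψ q := by
    have h2 := (hΨ.of_le (m := 1) (by exact_mod_cast (le_top : ((1 : ℕ∞)) ≤ ⊤))).eventually
      (by simp)
    filter_upwards [h2] with q hq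
    exact hq.differentiableAt (by simp)
  have hX' : ∀ᶠ z in 𝓝 z₀, X z = fderiv ℝ Ψ (z, (0:ℝ)) (0, 1) := by
    have h3 : ∀ᶠ z in 𝓝 z₀, DifferentiableAt ℝ Ψ (z, (0:ℝ)) :=
      (Continuous.tendsto (f := fun z : E => (z, (0:ℝ))) (by fun_prop) z₀).eventually hdiff
    filter_upwards [h3, hX] with z h4 h5
    have h6 : HasDerivAt (fun t : ℝ => Ψ (z, t)) (fderiv ℝ Ψ (z, (0:ℝ)) (0, 1)) 0 := by
      have h7 : HasDerivAt (fun t : ℝ => (z, t)) ((0 : E), (1 : ℝ)) 0 :=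
        (hasDerivAt_const _ _).prodMk (hasDerivAt_id _)
      exact h4.hasFDerivAt.comp_hasDerivAt (0:ℝ) h7
    exact h5.unique h6
  have hXd : HasFDerivAt X
      ((ContinuousLinearMap.apply ℝ E ((0 : E), (1 : ℝ))).comp
        (D2.comp (ContinuousLinearMap.inl ℝ E ℝ))) z₀ := by
    have h2 : HasFDerivAt (fun z : E => fderiv ℝ Ψ (z, (0:ℝ)))
        (D2.comp (ContinuousLinearMap.inl ℝ E ℝ)) z₀ :=
      HasFDerivAt.comp (g := fderiv ℝ Ψ) (f := fun z : E => (z, (0:ℝ))) z₀ hd2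
        (hasFDerivAt_prodMk_left z₀ (0:ℝ))
    have h3 := (ContinuousLinearMap.apply ℝ E ((0 : E), (1 : ℝ))).hasFDerivAt.comp z₀ h2
    exact h3.congr_of_eventuallyEq hX'
  have hA : HasDerivAt (fun t : ℝ => fderiv ℝ Ψ (z₀, t) (s z₀, 0)) (D2 (0, 1) (s z₀, 0)) 0 := by
    have h2 : HasDerivAt (fun t : ℝ => fderiv ℝ Ψ (z₀, t)) (D2 (0, 1)) 0 := by
      have h7 : HasDerivAt (fun t : ℝ => (z₀, t)) ((0 : E), (1 : ℝ)) 0 :=
        (hasDerivAt_const _ _).prodMk (hasDerivAt_id _)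
      exact hd2.comp_hasDerivAt (0:ℝ) h7
    have h3 := (ContinuousLinearMap.apply ℝ E ((s z₀ : E), (0 : ℝ))).hasFDerivAt.comp_hasDerivAt
      (0:ℝ) h2
    exact h3
  have hz0 : Ψ (z₀, 0) = z₀ := h0.self_of_nhds
  have hepd : HasFDerivAt ep (fderiv ℝ ep z₀) z₀ :=
    (hep.differentiableAt (by simp)).hasFDerivAt
  have hE : HasDerivAt (fun t : ℝ => ep (Ψ (z₀, t))) (fderiv ℝ ep z₀ (X z₀)) 0 := by
    have h2 : HasFDerivAt ep (fderiv ℝ ep z₀) (Ψ (z₀, 0)) := by rw [hz0]; exact hepd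
    exact h2.comp_hasDerivAt (0:ℝ) hX.self_of_nhds
  have hA0 : fderiv ℝ Ψ (z₀, 0) (s z₀, 0) = s z₀ := by
    have h2 : HasFDerivAt (fun z : E => Ψ (z, (0:ℝ)))
        ((fderiv ℝ Ψ (z₀, 0)).comp (ContinuousLinearMap.inl ℝ E ℝ)) z₀ :=
      HasFDerivAt.comp (g := Ψ) (f := fun z : E => (z, (0:ℝ))) z₀
        hdiff.self_of_nhds.hasFDerivAt (hasFDerivAt_prodMk_left z₀ (0:ℝ))
    have h3 : HasFDerivAt (fun z : E => Ψ (z, (0:ℝ))) (ContinuousLinearMap.id ℝ E) z₀ :=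
      (hasFDerivAt_id z₀).congr_of_eventuallyEq h0
    have h4 := DFunLike.congr_fun (h2.unique h3) (s z₀)
    simpa using h4
  have hfin := hE.clm_apply hA
  have h8 : fderiv ℝ ep z₀ (s z₀) (X z₀) + ep z₀ (D2 (s z₀, 0) (0, 1)) = 0 := by
    have h2 := hepd.clm_apply hXd
    have h3 : HasFDerivAt (fun z => ep z (X z)) (0 : E →L[ℝ] ℝ) z₀ :=
      (hasFDerivAt_const (0:ℝ) z₀).congr_of_eventuallyEq h1
    have h4 := DFunLike.congr_fun (h2.unique h3) (s z₀)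
    simp at h4
    linarith
  have h9 : D2 (0, 1) (s z₀, 0) = D2 (s z₀, 0) (0, 1) := hsym _ _
  have h10 : - dd ep z₀ (s z₀) (X z₀) =
      fderiv ℝ ep z₀ (X z₀) (fderiv ℝ Ψ (z₀, 0) (s z₀, 0)) +
        ep (Ψ (z₀, 0)) (D2 (0, 1) (s z₀, 0)) := by
    rw [hA0, hz0, h9, dd]
    linarith
  rw [h10]
  exact hfin

theorem gr : S_GR.{u, v} := by
  intro E _ _ _ M _ _ _ _ _ R Φ hF hs m e he p z₀ hz s ep hsd hep hn hh
  -- the flow in the chart
  have hΨ := contDiffAt_psi (p := p) (z₀ := z₀) hF hs hz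
  have htar : ∀ᶠ z in 𝓝 z₀, z ∈ (ch E p).target := (isOpen_extChartAt_target p).mem_nhds hz
  have h0 : ∀ᶠ z in 𝓝 z₀, Psi E Φ p (z, 0) = z := by
    filter_upwards [htar] with z hz'
    simp only [Psi]
    rw [hF.zero, (ch E p).right_inv hz']
  have hX : ∀ᶠ z in 𝓝 z₀, HasDerivAt (fun t : ℝ => Psi E Φ p (z, t)) (cVec R p z) 0 := by
    filter_upwards [htar] with z hz'
    exact hasDerivAt_psi hF hz'
  have hcore := core (Psi E Φ p) z₀ hΨ (cVec R p) h0 hX s ep hep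
    (by filter_upwards [hn] with z h using h.2.1)
  have hz0 : Psi E Φ p (z₀, 0) = z₀ := h0.self_of_nhds
  have hdiff : ∀ᶠ q in 𝓝 (z₀, (0:ℝ)), DifferentiableAt ℝ (Psi E Φ p) q := by
    have h2 := (hΨ.of_le (m := 1) (by exact_mod_cast (le_top : ((1 : ℕ∞)) ≤ ⊤))).eventually
      (by simp)
    filter_upwards [h2] with q hq
    exact hq.differentiableAt (by simp)
  have hct : Tendsto (fun t : ℝ => (z₀, t)) (𝓝 0) (𝓝 (z₀, (0:ℝ))) :=
    Continuous.tendsto (f := fun t : ℝ => (z₀, t)) (by fun_prop) 0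
  have hdt := hct.eventually hdiff
  -- the point stays near `z₀`
  have hcz : Tendsto (fun t : ℝ => Psi E Φ p (z₀, t)) (𝓝 0) (𝓝 z₀) := by
    have h1 : Tendsto (fun t : ℝ => Psi E Φ p (z₀, t)) (𝓝 0) (𝓝 (Psi E Φ p (z₀, 0))) :=
      hΨ.continuousAt.tendsto.comp hct
    rwa [hz0] at h1
  have hnt := hcz.eventually hn
  have htt := hcz.eventually htar
  -- the point of `M` stays in the chart
  have hsrc : (ch E p).symm z₀ ∈ (ch E p).source := (ch E p).map_target hz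
  have hst : ∀ᶠ t in 𝓝 (0:ℝ), Φ ((ch E p).symm z₀) t ∈ (ch E p).source := by
    have h1 : Continuous (fun t : ℝ => Φ ((ch E p).symm z₀) t) :=
      hs.continuous.comp (by fun_prop : Continuous fun t : ℝ => ((ch E p).symm z₀, t))
    have h2 : Tendsto (fun t : ℝ => Φ ((ch E p).symm z₀) t) (𝓝 0) (𝓝 ((ch E p).symm z₀)) := by
      have h3 := h1.tendsto 0
      rwa [hF.zero] at h3
    exact h2.eventually ((isOpen_extChartAt_source p).mem_nhds hsrc)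
  -- the length
  have key : ∀ᶠ t in 𝓝 (0:ℝ),
      Real.log ‖fderiv ℝ (e ∘ (fun y => Φ y t) ∘ (ch E p).symm) z₀ (s z₀)‖ =
      Real.log (ep (Psi E Φ p (z₀, t)) (fderiv ℝ (Psi E Φ p) (z₀, t) (s z₀, 0))) := by
    filter_upwards [hdt, hnt, htt, hst, hh] with t h1 h2 h3 h4 h5
    obtain ⟨r, hr⟩ := h5
    have hft : ContMDiff 𝓘(ℝ, E) 𝓘(ℝ, E) ∞ (fun y => Φ y t) :=
      hs.comp (contMDiff_id.prodMk contMDiff_const)
    -- derivative in space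
    have e1 : fderiv ℝ (hat E p (fun y => Φ y t)) z₀ (s z₀) =
        fderiv ℝ (Psi E Φ p) (z₀, t) (s z₀, 0) := by
      have h6 : HasFDerivAt (fun z : E => Psi E Φ p (z, t))
          ((fderiv ℝ (Psi E Φ p) (z₀, t)).comp (ContinuousLinearMap.inl ℝ E ℝ)) z₀ :=
        HasFDerivAt.comp (g := Psi E Φ p) (f := fun z : E => (z, t)) z₀
          h1.hasFDerivAt (hasFDerivAt_prodMk_left z₀ t)
      have h7 : hat E p (fun y => Φ y t) = fun z : E => Psi E Φ p (z, t) := rfl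
      rw [h7, h6.fderiv]
      simp
    have e2 : hat E p (fun y => Φ y t) z₀ = Psi E Φ p (z₀, t) := rfl
    -- chain rule
    have e3 : fderiv ℝ (e ∘ (fun y => Φ y t) ∘ (ch E p).symm) z₀ (s z₀) =
        fderiv ℝ (e ∘ (ch E p).symm) (Psi E Φ p (z₀, t))
          (fderiv ℝ (hat E p (fun y => Φ y t)) z₀ (s z₀)) := by
      have h6 : e ∘ (fun y => Φ y t) ∘ (ch E p).symm =ᶠ[𝓝 z₀]
          (e ∘ (ch E p).symm) ∘ hat E p (fun y => Φ y t) := by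
        filter_upwards [hat_eventually hft hz h4] with z hz'
        simp only [Function.comp_apply, hat]
        rw [(ch E p).left_inv hz'.2]
      rw [h6.fderiv_eq, fderiv_comp]
      · rfl
      · rw [e2]
        exact ((contDiffOn_imm he).contDiffAt
          ((isOpen_extChartAt_target p).mem_nhds h3)).differentiableAt (by simp)
      · exact (contDiffAt_hat hft hz h4).differentiableAt (by simp)
    rw [e3, hr, e2, map_smul, norm_smul, h2.2.2, mul_one, Real.norm_eq_abs, Real.log_abs, ← e1, hr,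
      e2, map_smul, h2.1, smul_eq_mul, mul_one]
  have hA0 : ep (Psi E Φ p (z₀, 0)) (fderiv ℝ (Psi E Φ p) (z₀, 0) (s z₀, 0)) = 1 := by
    have h2 : HasFDerivAt (fun z : E => Psi E Φ p (z, (0:ℝ)))
        ((fderiv ℝ (Psi E Φ p) (z₀, 0)).comp (ContinuousLinearMap.inl ℝ E ℝ)) z₀ :=
      HasFDerivAt.comp (g := Psi E Φ p) (f := fun z : E => (z, (0:ℝ))) z₀
        hdiff.self_of_nhds.hasFDerivAt (hasFDerivAt_prodMk_left z₀ (0:ℝ))
    have h3 : HasFDerivAt (fun z : E => Psi E Φ p (z, (0:ℝ))) (ContinuousLinearMap.id ℝ E) z₀ :=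
      (hasFDerivAt_id z₀).congr_of_eventuallyEq h0
    have h4 := DFunLike.congr_fun (h2.unique h3) (s z₀)
    have h5 : fderiv ℝ (Psi E Φ p) (z₀, 0) (s z₀, 0) = s z₀ := by simpa using h4
    rw [h5, hz0, hn.self_of_nhds.1]
  have hlog := hcore.log (by rw [hA0]; exact one_ne_zero)
  rw [hA0, div_one] at hlog
  exact hlog.congr_of_eventuallyEq key

end Pool.Agent.H87.LR
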